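import Pool.Agent.L0h45.AV.Stm

set_option autoImplicit false

/-! AV-L38: the numbers of tuples modulo `3` and modulo `8`. -/

namespace Pool.Agent.L0h93.AV.L38

open Finset
open Pool.Agent.N874.PP (Tup chA chB)
open Pool.Agent.L0h45.AV

theorem nb (a b : ℕ) : Nat.beq a b = true ↔ a = b :=
  ⟨Nat.eq_of_beq_eq_true, fun h => h ▸ Nat.beq_refl a⟩

/-- the sum of `f` over `k < n` -/
noncomputable def sm (f : ℕ → ℕ) (n : ℕ) : ℕ := Nat.rec 0 (fun k ih => Nat.add ih (f k)) n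

theorem sm_eq (f : ℕ → ℕ) (n : ℕ) : sm f n = ∑ k ∈ range n, f k := by
  induction n with
  | zero => rfl
  | succ n ih =>
    rw [sum_range_succ, ← ih]
    rfl

/-- the conditions -/
noncomputable def lf (s : ℕ → ℕ → ℕ → ℕ → ℕ → Bool) (n a b x y c z w : ℕ) : ℕ :=
  cond (Nat.beq (Nat.mod (Nat.add (Nat.add a (Nat.mul 3 (Nat.mul c c)))
      (Nat.add (Nat.mul 2 (Nat.mul y z)) (Nat.mul x w))) n) 0)
    (cond (Nat.beq (Nat.mod (Nat.add (Nat.mul 2 (Nat.mul c (Nat.mul c c)))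
        (Nat.mul 2 (Nat.mul c (Nat.mul y z)))) n)
      (Nat.mod (Nat.add (Nat.add b (Nat.mul x (Nat.mul z z)))
        (Nat.add (Nat.mul w (Nat.mul y y)) (Nat.mul 2 (Nat.mul c (Nat.mul x w))))) n))
      (cond (s x y c z w) 1 0) 0) 0

noncomputable def tot (s : ℕ → ℕ → ℕ → ℕ → ℕ → Bool) (n a b : ℕ) : ℕ :=
  sm (fun x => sm (fun y => sm (fun c => sm (fun z => sm (fun w => lf s n a b x y c z w) n) n) n) n) n

theorem tot_eq (s : ℕ → ℕ → ℕ → ℕ → ℕ → Bool) (n a b : ℕ) : tot s n a b =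
    ∑ t ∈ range n ×ˢ range n ×ˢ range n ×ˢ range n ×ˢ range n,
      lf s n a b t.1 t.2.1 t.2.2.1 t.2.2.2.1 t.2.2.2.2 := by
  unfold tot
  simp only [sm_eq]
  rw [sum_product]
  refine sum_congr rfl fun x _ => ?_
  rw [sum_product]
  refine sum_congr rfl fun y _ => ?_
  rw [sum_product]
  refine sum_congr rfl fun c _ => ?_
  rw [sum_product]

theorem card_le (s : ℕ → ℕ → ℕ → ℕ → ℕ → Bool) (n a b : ℕ) (hn : 0 < n) (S : Set (Tup ℤ))
    (hS : ∀ x y c z w : ℕ, x < n → y < n → c < n → z < n → w < n →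
      (⟨x, y, c, z, w⟩ : Tup ℤ) ∈ S → lf s n a b x y c z w = 1)
    (hB : S ⊆ Bo n) : S.ncard ≤ tot s n a b := by
  classical
  let P := range n ×ˢ range n ×ˢ range n ×ˢ range n ×ˢ range n
  let f : ℕ × ℕ × ℕ × ℕ × ℕ → ℕ := fun t => lf s n a b t.1 t.2.1 t.2.2.1 t.2.2.2.1 t.2.2.2.2
  let g : ℕ × ℕ × ℕ × ℕ × ℕ → Tup ℤ := fun t => ⟨t.1, t.2.1, t.2.2.1, t.2.2.2.1, t.2.2.2.2⟩
  have h1 : S ⊆ ((P.filter fun t => f t = 1).image g : Finset (Tup ℤ)) := by
    intro B hBS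
    obtain ⟨x0, x1, y0, y1, c0, c1, z0, z1, w0, w1⟩ := hB hBS
    rw [coe_image]
    refine ⟨(B.x.toNat, B.y.toNat, B.c.toNat, B.z.toNat, B.w.toNat), ?_, ?_⟩
    · rw [coe_filter]
      refine ⟨?_, ?_⟩
      · simp only [P, mem_product, mem_range]
        refine ⟨?_, ?_, ?_, ?_, ?_⟩ <;> omega
      · refine hS _ _ _ _ _ (by show B.x.toNat < n; omega) (by show B.y.toNat < n; omega)
          (by show B.c.toNat < n; omega) (by show B.z.toNat < n; omega)
          (by show B.w.toNat < n; omega) ?_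
        have : (⟨(B.x.toNat : ℤ), (B.y.toNat : ℤ), (B.c.toNat : ℤ), (B.z.toNat : ℤ), (B.w.toNat : ℤ)⟩ :
            Tup ℤ) = B := by
          rw [Int.toNat_of_nonneg x0, Int.toNat_of_nonneg y0, Int.toNat_of_nonneg c0,
            Int.toNat_of_nonneg z0, Int.toNat_of_nonneg w0]
        rw [this]
        exact hBS
    · show (⟨(B.x.toNat : ℤ), (B.y.toNat : ℤ), (B.c.toNat : ℤ), (B.z.toNat : ℤ), (B.w.toNat : ℤ)⟩ :
            Tup ℤ) = B
      rw [Int.toNat_of_nonneg x0, Int.toNat_of_nonneg y0, Int.toNat_of_nonneg c0,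
            Int.toNat_of_nonneg z0, Int.toNat_of_nonneg w0]
  calc S.ncard ≤ (((P.filter fun t => f t = 1).image g : Finset (Tup ℤ)) : Set (Tup ℤ)).ncard :=
        Set.ncard_le_ncard h1 (Finset.finite_toSet _)
    _ = ((P.filter fun t => f t = 1).image g).card := Set.ncard_coe_finset _
    _ ≤ (P.filter fun t => f t = 1).card := card_image_le
    _ = ∑ t ∈ P.filter fun t => f t = 1, f t := by
        rw [card_eq_sum_ones]
        exact sum_congr rfl fun t ht => (mem_filter.1 ht).2.symm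
    _ ≤ ∑ t ∈ P, f t := sum_le_sum_of_subset (filter_subset _ _)
    _ = tot s n a b := (tot_eq s n a b).symm

/-- the conditions on the coordinates -/
theorem lf_one (s : ℕ → ℕ → ℕ → ℕ → ℕ → Bool) (n a b x y c z w : ℕ) (hn : 0 < n) (a' b' : ℤ)
    (ha : (n : ℤ) ∣ a' - a) (hb : (n : ℤ) ∣ b' - b)
    (h1 : (n : ℤ) ∣ chA (⟨x, y, c, z, w⟩ : Tup ℤ) - a')
    (h2 : (n : ℤ) ∣ chB (⟨x, y, c, z, w⟩ : Tup ℤ) - b') (h3 : s x y c z w = true) :
    lf s n a b x y c z w = 1 := by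
  unfold lf
  have e1 : Nat.beq (Nat.mod (Nat.add (Nat.add a (Nat.mul 3 (Nat.mul c c)))
      (Nat.add (Nat.mul 2 (Nat.mul y z)) (Nat.mul x w))) n) 0 = true := by
    refine (nb _ _).2 ?_
    show (a + 3 * (c * c) + (2 * (y * z) + x * w)) % n = 0
    refine Nat.mod_eq_zero_of_dvd ?_
    have h4 : (n : ℤ) ∣ ((a + 3 * (c * c) + (2 * (y * z) + x * w) : ℕ) : ℤ) := by
      have h5 := dvd_neg.2 (dvd_add h1 ha)
      have e : (((a + 3 * (c * c) + (2 * (y * z) + x * w) : ℕ) : ℤ)) =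
          -(chA (⟨x, y, c, z, w⟩ : Tup ℤ) - a' + (a' - a)) := by
        unfold chA
        push_cast
        ring
      rw [e]
      exact h5
    exact_mod_cast h4
  have e2 : Nat.beq (Nat.mod (Nat.add (Nat.mul 2 (Nat.mul c (Nat.mul c c)))
        (Nat.mul 2 (Nat.mul c (Nat.mul y z)))) n)
      (Nat.mod (Nat.add (Nat.add b (Nat.mul x (Nat.mul z z)))
        (Nat.add (Nat.mul w (Nat.mul y y)) (Nat.mul 2 (Nat.mul c (Nat.mul x w))))) n) = true := by
    refine (nb _ _).2 ?_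
    show (2 * (c * (c * c)) + 2 * (c * (y * z))) % n =
      (b + x * (z * z) + (w * (y * y) + 2 * (c * (x * w)))) % n
    have h4 : ((b + x * (z * z) + (w * (y * y) + 2 * (c * (x * w))) : ℕ) : ℤ) ≡
        ((2 * (c * (c * c)) + 2 * (c * (y * z)) : ℕ) : ℤ) [ZMOD n] := by
      refine (Int.modEq_iff_dvd.2 ?_)
      have h5 := dvd_add h2 hb
      have e : (((2 * (c * (c * c)) + 2 * (c * (y * z)) : ℕ) : ℤ)) -
          ((b + x * (z * z) + (w * (y * y) + 2 * (c * (x * w))) : ℕ) : ℤ) =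
          chB (⟨x, y, c, z, w⟩ : Tup ℤ) - b' + (b' - b) := by
        unfold chB
        push_cast
        ring
      rw [e]
      exact h5
    exact ((Int.natCast_modEq_iff.1 h4).symm)
  rw [e1, e2, h3]
  rfl

/-- solubility at `2` -/
def sol (x y c z w : ℕ) : Bool :=
  or (Nat.beq (Nat.mod x 4) 0) (or (Nat.beq (Nat.mod w 4) 0) (or (Nat.beq x 7) (or (Nat.beq w 7)
    (or (and (Nat.beq x 3) (Nat.beq (Nat.mod (Nat.add y (Nat.add c w)) 2) 1))
      (and (Nat.beq w 3) (Nat.beq (Nat.mod (Nat.add x (Nat.add c z)) 2) 1))))))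

theorem sol_ok (x y c z w : ℕ) (hx : x < 8) (hw : w < 8)
    (h : Sol8 (⟨x, y, c, z, w⟩ : Tup ℤ)) : sol x y c z w = true := by
  have e : sol x y c z w = true ↔ x % 4 = 0 ∨ w % 4 = 0 ∨ x = 7 ∨ w = 7 ∨
      (x = 3 ∧ (y + (c + w)) % 2 = 1) ∨ (w = 3 ∧ (x + (c + z)) % 2 = 1) := by
    unfold sol
    simp only [Bool.or_eq_true, Bool.and_eq_true, nb]
    rfl
  rw [e]
  unfold Sol8 at h
  simp only at h
  omega

noncomputable def ok8 : Bool := (List.range 8).all fun a => (List.range 8).all fun b =>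
  (Nat.beq (Nat.mod a 2) 0) || (Nat.beq (Nat.mod b 2) 0) || Nat.ble (tot sol 8 a b) 256

noncomputable def ok3 : Bool := (List.range 3).all fun a => (List.range 3).all fun b =>
  (Nat.beq a 0) || Nat.ble (tot (fun _ _ _ _ _ => true) 3 a b) 24

theorem k8 : ok8 = true := by decide +kernel

theorem k3 : ok3 = true := by decide +kernel

theorem t_L3 : S_L3 := by
  intro a b ha
  have hk := k3
  unfold ok3 at hk
  rw [List.all_eq_true] at hk
  have h1 := hk (a % 3).toNat (List.mem_range.2 (by omega))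
  rw [List.all_eq_true] at h1
  have h2 := h1 (b % 3).toNat (List.mem_range.2 (by omega))
  rw [Bool.or_eq_true] at h2
  have h3 : ¬ Nat.beq (a % 3).toNat 0 = true := by
    rw [nb]
    omega
  have h4 := h2.resolve_left h3
  rw [Nat.ble_eq] at h4
  refine le_trans (card_le (fun _ _ _ _ _ => true) 3 (a % 3).toNat (b % 3).toNat (by norm_num) _ ?_ ?_)
    h4
  · rintro x y c z w - - - - - ⟨-, h5, h6⟩
    exact lf_one _ 3 _ _ x y c z w (by norm_num) a b (by omega) (by omega) h5 h6 rfl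
  · intro B hB
    exact hB.1

theorem t_L8 : S_L8 := by
  intro a b ha hb
  have hk := k8
  unfold ok8 at hk
  rw [List.all_eq_true] at hk
  have h1 := hk (a % 8).toNat (List.mem_range.2 (by omega))
  rw [List.all_eq_true] at h1
  have h2 := h1 (b % 8).toNat (List.mem_range.2 (by omega))
  rw [Bool.or_eq_true, Bool.or_eq_true] at h2
  have ha' : a % 2 = 1 := Int.odd_iff.1 ha
  have hb' : b % 2 = 1 := Int.odd_iff.1 hb
  have h3 : ¬ (Nat.beq (Nat.mod (a % 8).toNat 2) 0 = true ∨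
      Nat.beq (Nat.mod (b % 8).toNat 2) 0 = true) := by
    rw [nb, nb]
    show ¬ ((a % 8).toNat % 2 = 0 ∨ (b % 8).toNat % 2 = 0)
    omega
  have h4 := h2.resolve_left h3
  rw [Nat.ble_eq] at h4
  refine le_trans (card_le sol 8 (a % 8).toNat (b % 8).toNat (by norm_num) _ ?_ ?_) h4
  · rintro x y c z w hx - - - hw ⟨-, h5, h6, h7⟩
    exact lf_one _ 8 _ _ x y c z w (by norm_num) a b (by omega) (by omega) h5 h6
      (sol_ok x y c z w hx hw h7)
  · intro B hB
    exact hB.1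

end Pool.Agent.L0h93.AV.L38
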