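import Pool.Agent.L0h45.AV.Stm
import Pool.Agent.N441.PQ.LB
import Pool.Agent.N738.PQ.Chi

set_option autoImplicit false
set_option linter.all false

/-! AV-REX: existence of the tuple. -/

open IsDedekindDomain NumberField Matrix
open scoped Classical

namespace Pool.Agent.L0h93.AV.REX

open Pool.Agent.N874.PP (Tup chA chB Ev)
open Pool.Agent.N922.PQ
open Pool.Agent.N441.PQ (gram_change li_change)
open Pool.Agent.L0h45.AV

theorem t_REX (h1 : S_SD) (h2 : S_DET) (h3 : S_MAJ) (h4 : S_NRM) : S_REX := by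
  intro L O _ _ _ _ _ _ _ a b θ h ha hsqf α hα hsq hEv
  obtain ⟨e, hSD⟩ := h1 L O h.rank α hα hEv
  obtain ⟨G, B0, hdet, hG, hB0⟩ := h2 L a b θ h hsqf α e hα hsq hSD
  have hnorm : 0 < Algebra.norm ℚ α := by
    obtain ⟨r, hr⟩ := hsq
    have hr0 : r ≠ 0 := by
      rintro rfl
      rw [mul_zero] at hr
      exact hα (Algebra.norm_eq_zero_iff.1 hr)
    rw [hr]
    exact mul_self_pos.2 hr0
  -- the size of the coefficients
  obtain ⟨X, hX⟩ : ∃ X : ℕ, X = 1 + a.natAbs + b.natAbs := ⟨_, rfl⟩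
  have hX1 : (1 : ℤ) ≤ X := by rw [hX]; push_cast; have := abs_nonneg a; have := abs_nonneg b; linarith
  have haX : a ≤ (X : ℤ) ^ 2 := by
    have : a ≤ X := by rw [hX]; push_cast; have := le_abs_self a; have := abs_nonneg b; linarith
    nlinarith
  have hbX : |b| ≤ (X : ℤ) ^ 3 := by
    have h8 : |b| ≤ X := by rw [hX]; push_cast; have := abs_nonneg a; linarith
    have h9 : (X : ℤ) ≤ (X : ℤ) ^ 3 := by nlinarith [sq_nonneg ((X : ℤ) - 1), mul_pos (show (0 : ℤ) < X by linarith) (show (0 : ℤ) < X by linarith)]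
    linarith
  obtain ⟨H, hH, hHdet, hC2, hC1, v0, hv0⟩ := h3 L a b θ h X ha haX hbX α e hα hnorm hSD.li
  have hGsymm : G.IsSymm := by
    ext i j
    rw [Matrix.transpose_apply]
    have h8 : (G j i : ℚ) = (G i j : ℚ) := by rw [hG, hG, mul_comm (e j)]
    exact_mod_cast h8
  have hGp : ∃ v : Fin 3 → ℤ, 0 < v ⬝ᵥ G *ᵥ v := by
    refine ⟨v0, ?_⟩
    have h10 : ((v0 ⬝ᵥ G *ᵥ v0 : ℤ) : ℚ) = ∑ i, ∑ j, (v0 i : ℚ) * (v0 j : ℚ) *
        h.co 2 (e i * e j / α) := by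
      simp only [← hG]
      simp only [dotProduct, Matrix.mulVec, Fin.sum_univ_three]
      push_cast
      ring
    have h11 : (0 : ℚ) < ((v0 ⬝ᵥ G *ᵥ v0 : ℤ) : ℚ) := by rw [h10]; exact hv0
    exact_mod_cast h11
  obtain ⟨U, hU, hJJ⟩ := h4 G hGsymm hdet hGp
  obtain ⟨B2, hB2⟩ : ∃ B2, B2 = U * B0 * Uᵀ := ⟨_, rfl⟩
  obtain ⟨e', he'⟩ : ∃ e' : Fin 3 → L, ∀ i, e' i = ∑ j, (U i j : L) * e j :=
    ⟨fun i => ∑ j, (U i j : L) * e j, fun i => rfl⟩
  have hli : LinearIndependent ℚ e' := li_change e e' U hU hSD.li he'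
  have hc2 : ∀ i j, h.co 2 (e' i * e' j / α) = (JJ i j : ℚ) := by
    intro i j
    rw [gram_change (h.co 2) α e e' G U hG he' i j, hJJ]
  have hc1 : ∀ i j, h.co 1 (e' i * e' j / α) = (B2 i j : ℚ) := by
    intro i j
    rw [gram_change (h.co 1) α e e' B0 U hB0 he' i j, ← hB2]
  obtain ⟨hm, -, -⟩ := Pool.Agent.N738.PQ.chi L a b θ h α e' hα hli hc2 B2 hc1
  have hsym : ∀ i j, B2 i j = B2 j i := by
    intro i j
    have h8 : (B2 i j : ℚ) = B2 j i := by rw [← hc1, ← hc1, mul_comm (e' i)]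
    exact_mod_cast h8
  refine ⟨⟨B2 0 0, B2 0 1, B2 0 2, B2 1 2, B2 2 2⟩, e', hli, hc2, ?_⟩
  intro i j
  rw [hc1]
  congr 1
  unfold L0h45.AV.mt
  have e1 := hsym 1 0
  have e2 := hsym 2 0
  have e3 := hsym 2 1
  fin_cases i <;> fin_cases j <;> simp [hm, e1, e2, e3]

end Pool.Agent.L0h93.AV.REX
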